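import Pool.Agent.helper36.P3.Places
import Pool.Agent.helper8.P3.Dom
import Pool.Agent.helper59.P3.MaxPrinciple
import Pool.Agent.helper67.P3.Rank
import Pool.Agent.helper91.P3.Dyadic
import Pool.Agent.helper99.P3.RootOrder
import Pool.Agent.helper56.P3.MaxEnd
import Pool.Agent.helper56.P3.StatusEnd

/-!
# P3, module H5: the unit case
-/

namespace Pool.Agent.helper56.P3

open Finset Pool.Agent.helper56.Per

section H5aux

variable {K : Type*} [Field K] {Γ : Type*} [LinearOrderedCommGroupWithZero Γ]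
  {v : Valuation K Γ} {a b x3 c : K}

/-- size of `1 - a b` if `a b` is large -/
theorem H5_one_sub_large {x : K} (h : 1 < v x) : v (1 - x) = v x := by
  rw [Valuation.map_sub_eq_of_lt_right v (by rwa [map_one])]

/-- both `a` and `b` are integral where `T` is large and no two multipliers are large -/
theorem H5_ab_le (rel : a * b * x3 = a + b + x3 - 2) (hc : c ^ 2 = 1 - a * b) {q : ℕ}
    (hab : ¬ (1 < v a ∧ 1 < v b)) (hax : ¬ (1 < v a ∧ 1 < v x3))
    (hbx : ¬ (1 < v b ∧ 1 < v x3)) (hT : 1 < v (TT b c q)) : v a ≤ 1 ∧ v b ≤ 1 := by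
  have hTle : ∀ y : K, v y ≤ 1 → 1 < v c → TT b c q = y / c → False := by
    intro y hy hc1 hTe
    rw [hTe, map_div₀] at hT
    have h1 : v y / v c < 1 := by
      rw [div_lt_one₀ (zero_lt_one.trans hc1)]
      exact hy.trans_lt hc1
    exact absurd hT (not_lt.2 h1.le)
  have hc1 : ∀ r : K, 1 < v r → v (a * b) = v r → 1 < v c := by
    intro r hr hr2
    have h1 : v c ^ 2 = v r := by
      rw [← map_pow, hc, H5_one_sub_large (by rwa [hr2]), hr2]
    by_contra hcon
    rw [not_lt] at hcon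
    have h2 : v c ^ 2 ≤ 1 := pow_le_one₀ zero_le hcon
    rw [h1] at h2
    exact absurd hr (not_lt.2 h2)
  constructor
  · by_contra hcon
    rw [not_le] at hcon
    have hb : v b ≤ 1 := not_lt.1 (fun h => hab ⟨hcon, h⟩)
    have hx : v x3 ≤ 1 := not_lt.1 (fun h => hax ⟨hcon, h⟩)
    obtain ⟨h1, -⟩ := T2 v (a := b) (b := x3) (c := a) (by linear_combination rel) hb hx hcon
    have h2 := hc1 a hcon (by rw [map_mul, h1, mul_one])
    refine hTle (1 - b⁻¹ ^ q) ?_ h2 rfl
    refine v.map_sub_le (by rw [map_one]) ?_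
    rw [map_pow, map_inv₀, h1, inv_one, one_pow]
  · by_contra hcon
    rw [not_le] at hcon
    have ha : v a ≤ 1 := not_lt.1 (fun h => hab ⟨h, hcon⟩)
    have hx : v x3 ≤ 1 := not_lt.1 (fun h => hbx ⟨hcon, h⟩)
    obtain ⟨h1, -⟩ := T2 v (a := a) (b := x3) (c := b) (by linear_combination rel) ha hx hcon
    have h2 := hc1 b hcon (by rw [map_mul, h1, one_mul])
    refine hTle (1 - b⁻¹ ^ q) ?_ h2 rfl
    refine v.map_sub_le (by rw [map_one]) ?_
    rw [map_pow, map_inv₀]
    exact pow_le_one₀ zero_le (inv_lt_one_of_one_lt₀ hcon).le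

theorem H5_c_lt (hc : c ^ 2 = 1 - a * b) {q : ℕ} (ha : v a ≤ 1) (hb : v b = 1)
    (hT : 1 < v (TT b c q)) : v c < 1 := by
  have h1 : v c ^ 2 ≤ 1 := by
    rw [← map_pow, hc]
    refine v.map_sub_le (by rw [map_one]) ?_
    rw [map_mul, hb, mul_one]
    exact ha
  have h2 : v c ≤ 1 := by
    by_contra hcon
    rw [not_le] at hcon
    exact absurd h1 (not_le.2 (one_lt_pow₀ hcon two_ne_zero))
  refine lt_of_le_of_ne h2 ?_
  intro h3
  have h4 : v (TT b c q) ≤ 1 := by
    unfold TT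
    rw [map_div₀, h3, div_one]
    refine v.map_sub_le (by rw [map_one]) ?_
    rw [map_pow, map_inv₀, hb, inv_one, one_pow]
  exact absurd hT (not_lt.2 h4)

end H5aux

section H5aux2

variable {k K : Type*} [Field k] [Field K] [Algebra k K] [IsAlgClosed k] [CharZero k]

/-- closeness to a root of unity of order dividing `j` -/
theorem H5_root {ν : ValuationSubring K} {b : K} {j : ℕ} (hj : 0 < j) (h : ν.valuation (b ^ j - 1) < 1) :
    ∃ α : k, α ^ j = 1 ∧ ν.valuation (b - algebraMap k K α) < 1 := by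
  classical
  have hfac : (Polynomial.X ^ j - 1 : Polynomial k) =
      ∏ ζ ∈ Polynomial.nthRootsFinset j (1 : k), (Polynomial.X - Polynomial.C ζ) := by
    have : NeZero (j : k) := ⟨by exact_mod_cast hj.ne'⟩
    obtain ⟨ζ, hζ⟩ := HasEnoughRootsOfUnity.exists_primitiveRoot k j
    exact Polynomial.X_pow_sub_one_eq_prod hj hζ
  have h1 : b ^ j - 1 = ∏ ζ ∈ Polynomial.nthRootsFinset j (1 : k), (b - algebraMap k K ζ) := by
    have h2 := congrArg (Polynomial.aeval b) hfac
    simpa [map_prod] using h2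
  by_contra hcon
  push Not at hcon
  rw [h1, map_prod] at h
  refine absurd h (not_lt.2 ?_)
  apply Finset.one_le_prod'
  intro ζ hζ
  exact hcon ζ ((Polynomial.mem_nthRootsFinset hj _).1 hζ)

theorem H5_pow_close {Γ : Type*} [LinearOrderedCommGroupWithZero Γ] {v : Valuation K Γ}
    {x y : K} (hx : v x ≤ 1) (hy : v y ≤ 1) (h : v (x - y) < 1) (j : ℕ) :
    v (x ^ j - y ^ j) < 1 := by
  obtain ⟨r, hr⟩ : ∃ r : K, x ^ j - y ^ j = (x - y) * r ∧ v r ≤ 1 := by
    refine ⟨∑ i ∈ range j, x ^ i * y ^ (j - 1 - i), (Commute.all x y).mul_geom_sum₂ j |>.symm, ?_⟩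
    apply Valuation.map_sum_le
    intro i _
    rw [map_mul, map_pow, map_pow]
    exact mul_le_one' (pow_le_one' hx _) (pow_le_one' hy _)
  rw [hr.1, map_mul]
  exact lt1_of_lt_of_le h hr.2

end H5aux2

section H5

variable {k K : Type*} [Field k] [Field K] [Algebra k K] [IsAlgClosed k] [IsAlgClosed K]
  [CharZero k] [Algebra.IsAlgebraic ℚ k] {n m : ℕ} {lam lam' : k} {a b x3 c : K} {W W' : ℕ → K}
  {O : ValuationSubring k}

omit [IsAlgClosed k] [IsAlgClosed K] [CharZero k] [Algebra.IsAlgebraic ℚ k] in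
/-- the residue of `b` at a place with rotation order `q` is a primitive root of unity -/
theorem H5_zeta {P : ValuationSubring K} {q : ℕ} (hP : IsPl k P) (hc : Ctx P.valuation b c)
    (hr : Rot P.valuation b c q) :
    ∃ ζ : k, IsPrimitiveRoot ζ q ∧ P.valuation (b - algebraMap k K ζ) < 1 := by
  obtain ⟨ζ, hζ⟩ := hP.res b hc.vb.le
  have hζle : P.valuation (algebraMap k K ζ) ≤ 1 := by
    by_cases h : ζ = 0
    · rw [h, map_zero, map_zero]; exact zero_le_one
    · exact (hP.cst ζ h).le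
  have hpow : ∀ j, P.valuation (b ^ j - algebraMap k K ζ ^ j) < 1 :=
    H5_pow_close hc.vb.le hζle hζ
  have hkey : ∀ j, P.valuation (b ^ j - 1) < 1 ↔ ζ ^ j = 1 := by
    intro j
    constructor
    · intro h
      by_contra hne
      have h1 : P.valuation (algebraMap k K (ζ ^ j - 1)) = 1 := hP.cst _ (sub_ne_zero.2 hne)
      have h2 : algebraMap k K (ζ ^ j - 1) = (b ^ j - 1) - (b ^ j - algebraMap k K ζ ^ j) := by
        rw [map_sub, map_pow, map_one]; ring
      rw [h2] at h1
      exact absurd h1 (lt_of_le_of_lt (P.valuation.map_sub _ _) (max_lt h (hpow j))).ne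
    · intro h
      have h2 := hpow j
      rwa [← map_pow, h, map_one] at h2
  refine ⟨ζ, IsPrimitiveRoot.mk_of_lt ζ (by have := hr.two_le; omega) ?_ ?_, hζ⟩
  · exact (hkey q).1 (hr.le.trans_lt hc.vc)
  · intro l hl1 hl2 hl3
    exact absurd (hr.one l hl1 hl2) ((hkey l).2 hl3).ne

omit [IsAlgClosed K] [Algebra.IsAlgebraic ℚ k] [CharZero k] in
theorem H5_T_nc (G : Glob n m lam lam' a b x3 c W W') {q : ℕ} (hq : 0 < q) {t' : k}
    (hb : b ∉ Set.range (algebraMap k K)) (hT : TT b c q = algebraMap k K t') (ht' : t' ≠ 0) :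
    False := by
  have hb' : b⁻¹ ∉ Set.range (algebraMap k K) := by
    rintro ⟨x, hx⟩
    exact hb ⟨x⁻¹, by rw [map_inv₀, hx, inv_inv]⟩
  obtain ⟨B, hE, hB⟩ := exists_close (⊤ : ValuationSubring k) hb'
  have hb0 : b ≠ 0 := G.hW.b0
  have hc0 : c ≠ 0 := G.hW.c0
  have hVb : 1 < B.valuation b := by
    have := v_inv_gt_one (v := B.valuation) (inv_ne_zero hb0) hB
    rwa [inv_inv] at this
  have h1 : B.valuation (1 - b⁻¹ ^ q) = 1 := by
    rw [Valuation.map_sub_eq_of_lt_left]
    · rw [map_one]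
    · rw [map_one, map_pow]
      exact pow_lt_one₀ zero_le hB hq.ne'
  have ht1 : B.valuation (algebraMap k K t') = 1 := (hE.eq_one_iff t').2 (top_val_eq ht')
  have hc1 : B.valuation c = 1 := by
    have h2 : (1 - b⁻¹ ^ q) = algebraMap k K t' * c := by
      rw [← hT]
      unfold TT
      rw [div_mul_cancel₀ _ hc0]
    rw [h2, map_mul, ht1, one_mul] at h1
    exact h1
  have hab1 : B.valuation (1 - a * b) = 1 := by
    rw [← G.hc, map_pow, hc1, one_pow]
  have hab : B.valuation (a * b) ≤ 1 := by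
    have h2 : a * b = 1 - (1 - a * b) := by ring
    rw [h2]
    exact B.valuation.map_sub_le (by rw [map_one]) hab1.le
  have ha : B.valuation a < 1 := by
    by_contra hcon
    rw [not_lt] at hcon
    rw [map_mul] at hab
    exact absurd hab (not_le.2 (hVb.trans_le (le_mul_of_one_le_left' hcon)))
  have hx : B.valuation x3 = B.valuation b := by
    have h2 : x3 * (1 - a * b) = -((a + -2) + b) := by linear_combination -G.ts.rel
    have h3 := congrArg B.valuation h2
    rw [map_mul, hab1, mul_one, Valuation.map_neg] at h3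
    rw [h3]
    apply Valuation.map_add_eq_of_lt_right
    refine lt_of_le_of_lt ?_ hVb
    exact B.valuation.map_add_le ha.le (by rw [Valuation.map_neg]; exact v_two_le _)
  have hVx : 1 < B.valuation x3 := by rwa [hx]
  exact Q2_H hE (top_val_le lam) b x3 hVb hVx (G.ts.bc (ne_one_of_large _ hVb hVx))

theorem unit_case {P : ValuationSubring K} {q : ℕ} (G : Glob n m lam lam' a b x3 c W W')
    (hM : Mixed k P b c W W' q) (h2 : O.valuation 2 < 1)
    (hmax : ∀ P' q', Mixed k P' b c W W' q' → q' ≤ q)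
    {t : k} (ht : P.valuation (TT b c q - algebraMap k K t) < 1) (ht1 : 1 < O.valuation t)
    (hl : O.valuation lam = 1) (hl' : O.valuation lam' = 1) : False := by
  classical
  have hb0 : b ≠ 0 := G.hW.b0
  have hc0 : c ≠ 0 := G.hW.c0
  have hq0' : 0 < q := by have := hM.rot.two_le; omega
  obtain ⟨ζ, hζ, hbζ⟩ := H5_zeta hM.pl hM.ctx hM.rot
  obtain ⟨q0, L, hodd, hqL, hz1, hz2⟩ := root_order O.valuation h2 hq0' hζ
  obtain ⟨hA, -, -, ⟨j0, hD⟩, -, -, hT0⟩ := status_at_end G hM h2 hodd hqL ht ht1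
  set ν0 : ValuationSubring K := comp P hM.pl O with hν0
  set T : K := TT b c (q0 * 2 ^ L) with hTdef
  have hTne : T ≠ 0 := by
    intro h
    rw [h, map_zero] at hT0
    exact absurd hT0 (not_lt.2 zero_le)
  -- `b` and `T` are not constant
  have hbnc : b ∉ Set.range (algebraMap k K) := by
    rintro ⟨β, hβ⟩
    have h3 : β = ζ := by
      by_contra hne
      have h4 := hM.pl.cst _ (sub_ne_zero.2 hne)
      rw [map_sub, hβ] at h4
      exact absurd h4 hbζ.ne
    apply hTne
    rw [hTdef]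
    unfold TT
    rw [← hqL, ← hβ, h3, ← map_inv₀, ← map_pow, inv_pow, hζ.pow_eq_one, inv_one, map_one, sub_self,
      zero_div]
  have hB : Base O T⁻¹ ν0 := by
    refine ⟨comp_ext hM.pl O, ?_, ?_, rank_one O h2⟩
    · rw [← ValuationSubring.valuation_le_one_iff]
      exact (v_inv_lt_one hT0).le
    · rintro ⟨x, hx⟩
      have hx0 : x ≠ 0 := by
        rintro rfl
        rw [map_zero] at hx
        exact hTne (inv_eq_zero.1 hx.symm)
      refine H5_T_nc G (q := q0 * 2 ^ L) (by rw [← hqL]; exact hq0') (t' := x⁻¹) hbnc ?_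
        (inv_ne_zero hx0)
      rw [map_inv₀, hx, inv_inv]
  -- `T` is large at all dominating valuations
  have hT : ∀ ν, Dom O T⁻¹ ν0 ν → 1 < ν.valuation T := by
    intro ν hν
    have h3 : T⁻¹ ∈ Bp O T⁻¹ := by
      have h4 : T⁻¹ ∈ A0 O T⁻¹ := Subring.subset_closure (Or.inr rfl)
      exact (integralClosure (A0 O T⁻¹) K).algebraMap_mem ⟨T⁻¹, h4⟩
    have h5 := (hν.2 _ h3).2 (v_inv_lt_one hT0)
    have := v_inv_gt_one (v := ν.valuation) (inv_ne_zero hTne) h5
    rwa [inv_inv] at this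
  have hExt : ∀ ν, Dom O T⁻¹ ν0 ν → Ext O ν.valuation := fun ν hν => dom_ext hB hν
  -- the multipliers at the dominating valuations
  have hab : ∀ ν, Dom O T⁻¹ ν0 ν → ν.valuation a ≤ 1 ∧ ν.valuation b ≤ 1 := by
    intro ν hν
    have hno : ∀ x y, (x * y ≠ 1 → Q2 n m (algebraMap k K lam) (algebraMap k K lam') x y) →
        ¬ (1 < ν.valuation x ∧ 1 < ν.valuation y) := by
      rintro x y hQ ⟨hx, hy⟩
      exact Q2_H (hExt ν hν) hl.le x y hx hy (hQ (ne_one_of_large _ hx hy))
    exact H5_ab_le G.ts.rel G.hc (hno a b G.ts.ab) (hno a x3 G.ts.ac) (hno b x3 G.ts.bc)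
      (hT ν hν)
  have hvc : ∀ ν, Dom O T⁻¹ ν0 ν → ν.valuation b = 1 → ν.valuation c < 1 :=
    fun ν hν hb1 => H5_c_lt G.hc (hab ν hν).1 hb1 (hT ν hν)
  have hrot : ∀ ν, Dom O T⁻¹ ν0 ν → ν.valuation b = 1 →
      ∃ j, 0 < j ∧ j ≤ n ∧ ν.valuation (b ^ j - 1) < 1 := by
    intro ν hν hb1
    by_contra hcon
    push Not at hcon
    have hba : ν.valuation (1 - b * a) < 1 := by
      rw [mul_comm, ← G.hc, map_pow]
      exact pow_lt_one₀ zero_le (hvc ν hν hb1) two_ne_zero
    have hab1 : a * b ≠ 1 := by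
      intro h
      have h3 := G.hc
      rw [h, sub_self] at h3
      exact hc0 (pow_eq_zero_iff two_ne_zero |>.1 h3)
    obtain ⟨z, y, hz, -, -⟩ := G.ts.ba hab1
    have h3 := rotation ν.valuation hb1 hba (fun j hj hjn => le_antisymm
      (ν.valuation.map_sub_le (by rw [map_pow, hb1, one_pow]) (by rw [map_one]))
      (hcon j hj hjn)) hz
    exact absurd ((hExt ν hν).eq_one_iff lam |>.2 hl) h3.ne'
  -- constancy of the residue of `b`
  let s : Finset k := insert 0 ((range (n + 1)).biUnion (fun j => Polynomial.nthRootsFinset j 1))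
  have hs1 : ∀ ν, Dom O T⁻¹ ν0 ν → ∃ α ∈ s, ν.valuation (b - algebraMap k K α) < 1 := by
    intro ν hν
    rcases lt_or_eq_of_le (hab ν hν).2 with hb1 | hb1
    · exact ⟨0, mem_insert_self _ _, by rwa [map_zero, sub_zero]⟩
    · obtain ⟨j, hj, hjn, hj2⟩ := hrot ν hν hb1
      obtain ⟨α, hα, hα2⟩ := H5_root (k := k) hj hj2
      refine ⟨α, mem_insert_of_mem (mem_biUnion.2 ⟨j, mem_range.2 (by omega), ?_⟩), hα2⟩
      exact (Polynomial.mem_nthRootsFinset hj _).2 hα
  have hs2 : ∀ α ∈ s, α ∈ O := by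
    intro α hα
    rcases mem_insert.1 hα with rfl | hα
    · exact zero_mem _
    · obtain ⟨j, -, hj⟩ := mem_biUnion.1 hα
      rcases Nat.eq_zero_or_pos j with rfl | hjpos
      · simp at hj
      · have h3 := (Polynomial.mem_nthRootsFinset hjpos _).1 hj
        rw [← ValuationSubring.valuation_le_one_iff]
        by_contra hcon
        rw [not_le] at hcon
        have h4 := one_lt_pow₀ hcon hjpos.ne'
        rw [← map_pow, h3, map_one] at h4
        exact lt_irrefl _ h4
  obtain ⟨α, hα, hα2⟩ := const_fin hB s hs1 hs2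
  have hO_ζ : O.valuation ζ = 1 := by
    have h3 : O.valuation ζ ^ q = 1 := by rw [← map_pow, hζ.pow_eq_one, map_one]
    exact (pow_eq_one_iff_of_nonneg zero_le hq0'.ne').1 h3
  have hαζ : O.valuation (α - ζ) < 1 := by
    have h3 := hα2 ν0 (dom_self hB)
    have h4 : ν0.valuation (b - algebraMap k K ζ) < 1 := comp_lt_of_lt hM.pl O hbζ
    rw [← hB.ext.lt_one_iff, map_sub]
    have h5 : algebraMap k K α - algebraMap k K ζ =
        (b - algebraMap k K ζ) - (b - algebraMap k K α) := by ring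
    rw [h5]
    exact lt_of_le_of_lt (ν0.valuation.map_sub _ _) (max_lt h4 h3)
  have hbζ' : ∀ ν, Dom O T⁻¹ ν0 ν → ν.valuation (b - algebraMap k K ζ) < 1 := by
    intro ν hν
    have h3 := hα2 ν hν
    have h4 := ((hExt ν hν).lt_one_iff (α - ζ)).2 hαζ
    rw [map_sub] at h4
    have h5 : b - algebraMap k K ζ =
        (b - algebraMap k K α) + (algebraMap k K α - algebraMap k K ζ) := by ring
    rw [h5]
    exact Valuation.map_add_lt _ h3 h4
  -- the dyadic context at all dominating valuations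
  have hDC : ∀ ν, Dom O T⁻¹ ν0 ν → DCtx ν.valuation b c q0 := by
    intro ν hν
    have hζ1 : ν.valuation (algebraMap k K ζ) = 1 := ((hExt ν hν).eq_one_iff ζ).2 hO_ζ
    have hb1 : ν.valuation b = 1 := v_eq_one_of_sub (hbζ' ν hν) hζ1
    have hpow : ∀ j, ν.valuation (b ^ j - algebraMap k K ζ ^ j) < 1 :=
      H5_pow_close hb1.le hζ1.le (hbζ' ν hν)
    refine ⟨?_, hb1, hvc ν hν hb1, hc0, hodd, ?_, ?_⟩
    · have h3 := ((hExt ν hν).lt_one_iff 2).2 h2
      rwa [map_ofNat] at h3
    · intro j hj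
      have h3 := ((hExt ν hν).eq_one_iff (ζ ^ j - 1)).2 (hz2 j hj)
      rw [map_sub, map_pow, map_one] at h3
      have h4 : (b ^ j - 1) - (algebraMap k K ζ ^ j - 1) = b ^ j - algebraMap k K ζ ^ j := by ring
      exact v_eq_one_of_sub (by rw [h4]; exact hpow j) h3
    · have h3 := ((hExt ν hν).lt_one_iff (ζ ^ q0 - 1)).2 (hz1 q0 dvd_rfl)
      rw [map_sub, map_pow, map_one] at h3
      have h4 : b ^ q0 - 1 = (b ^ q0 - algebraMap k K ζ ^ q0) + (algebraMap k K ζ ^ q0 - 1) := by
        ring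
      rw [h4]
      exact Valuation.map_add_lt _ (hpow q0) h3
  have hself := dom_self hB
  -- statuses
  have hZ : ∀ ν, Dom O T⁻¹ ν0 ν → ∀ i, ¬ ν.valuation (W i * T) < 1 := by
    intro ν hν i
    rcases const_P1 hB (x := W i * T) (fun ν hν => D_status ν.valuation (hDC ν hν) G.hW
      (hT ν hν) i) with h3 | h3 | h3
    · exact absurd (h3 ν0 hself) (hA i)
    · intro h4
      have h5 := h3 ν hν
      have h6 : ν.valuation (W i * T) = 1 := v_eq_one_of_sub h5 (map_one _)
      exact absurd h6 h4.ne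
    · exact not_lt.2 (h3 ν hν).le
  have hY : ∀ ν, Dom O T⁻¹ ν0 ν → ν.valuation (W' j0 * T) < 1 := by
    intro ν hν
    rcases const_P1 hB (x := W' j0 * T) (fun ν hν => D_status ν.valuation (hDC ν hν) G.hW'
      (hT ν hν) j0) with h3 | h3 | h3
    · exact h3 ν hν
    · have h5 := h3 ν0 hself
      have h6 : ν0.valuation (W' j0 * T) = 1 := v_eq_one_of_sub h5 (map_one _)
      exact absurd h6 hD.ne
    · exact absurd hD (not_lt.2 (h3 ν0 hself).le)
  -- the maximum principle
  have hTLoc : T ∈ Loc O T⁻¹ ν0 := by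
    refine mp G.td hB ?_ ?_
    · intro P' hP'
      exact V4 G h2 hB (fun P'' q' h => by rw [← hqL]; exact hmax P'' q' h) hDC hT hZ hY hP'
    · intro ν hν
      have h3 := hν.rt Polynomial.X (fun i => by
        rw [Polynomial.coeff_X]
        split_ifs
        · rw [map_one]
        · rw [map_zero]; exact zero_le_one) ⟨1, by rw [Polynomial.coeff_X_one, map_one]⟩
      rw [Polynomial.aeval_X, map_inv₀, inv_eq_one] at h3
      exact h3.le
  exact absurd (Dom.le_of_loc hself hTLoc) (not_le.2 hT0)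

end H5

end Pool.Agent.helper56.P3
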